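import Pool.Agent.H.MP_f7abb8_nt.EF.Lem

/-!
# Even nonunitary perfect numbers: the smallest odd prime factor
-/

set_option autoImplicit false

namespace Pool.Agent.H.MP_f7abb8_nt.EF

open Pool.MP_f7abb8_nt.NU

theorem one_lt_of_eqn {b m : ℕ} (hm : m ≠ 0) (h : Eqn b m) : m ≠ 1 := by
  rintro rfl
  unfold Eqn at h
  rw [sg_one, us_one] at h
  omega

/-- there are primes of odd exponent -/
theorem odds_nonempty {b m : ℕ} (hb : Even b) (hm : Odd m) (h : Eqn b m) : (odds m).Nonempty := by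
  have hm0 : m ≠ 0 := by
    rintro rfl
    exact absurd hm (by decide)
  by_contra hcon
  rw [Finset.not_nonempty_iff_eq_empty] at hcon
  have h1 : ∀ p, p.Prime → Even (m.factorization p) := by
    intro p hp
    by_contra hodd
    rw [Nat.not_even_iff_odd] at hodd
    have hmem : p ∈ odds m := by
      unfold odds
      rw [Finset.mem_filter]
      refine ⟨?_, hodd⟩
      rw [← Nat.support_factorization, Finsupp.mem_support_iff]
      intro h0
      rw [h0] at hodd
      exact absurd hodd (by decide)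
    rw [hcon] at hmem
    exact absurd hmem (Finset.notMem_empty _)
  have h2 := sg_odd hm h1
  have h3 := us_even hm (one_lt_of_eqn hm0 h)
  unfold Eqn at h
  obtain ⟨c, hc⟩ := hb
  obtain ⟨x, hx⟩ := h2
  obtain ⟨y, hy⟩ := h3
  have h4 : 2 * (b * sg m) = 2 * x + 1 + 2 * ((b + 1) * y) + 2 * (c * m) := by
    have e1 : 2 * b * sg m = 2 * (b * sg m) := by ring
    have e2 : (b + 1) * us m = 2 * ((b + 1) * y) := by
      rw [hy]
      ring
    have e3 : b * m = 2 * (c * m) := by
      rw [hc]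
      ring
    rw [← e1, h, e2, e3, hx]
  omega

/-- `3` divides the odd part if `a` is odd -/
theorem three_dvd {a m : ℕ} (ha : Odd a) (h : Eqn (2 ^ a) m) : 3 ∣ m := by
  obtain ⟨k, rfl⟩ := ha
  have hb : (2 ^ (2 * k + 1)) % 3 = 2 := by
    rw [pow_succ, pow_mul, Nat.mul_mod, Nat.pow_mod]
    norm_num
  obtain ⟨c, hc⟩ : ∃ c, 2 ^ (2 * k + 1) = 3 * c + 2 := ⟨2 ^ (2 * k + 1) / 3, by omega⟩
  unfold Eqn at h
  rw [hc] at h
  have h1 : 3 ∣ 2 * m := by
    have h2 : 3 * (2 * c * sg m + sg m) = 3 * ((c + 1) * us m + c * m) + 2 * m := by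
      nlinarith
    omega
  omega

/-- the odd part of a divisor -/
theorem odd_part {a m p : ℕ} (hm : Odd m) (hp : Odd p) (h : p + 1 ∣ 2 ^ a * m) :
    ∃ v r, 1 ≤ v ∧ v ≤ a ∧ Odd r ∧ r ∣ m ∧ p + 1 = 2 ^ v * r := by
  obtain ⟨v, r, hr, hpr⟩ := Nat.exists_eq_two_pow_mul_odd (n := p + 1) (by omega)
  have hv : 1 ≤ v := by
    by_contra hcon
    have : v = 0 := by omega
    rw [this, pow_zero, one_mul] at hpr
    have h1 : Even (p + 1) := hp.add_one
    rw [hpr] at h1
    exact (Nat.not_even_iff_odd.mpr hr) h1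
  rw [hpr] at h
  have h1 : 2 ^ v ∣ 2 ^ a := by
    have h2 : 2 ^ v ∣ 2 ^ a * m := (dvd_mul_right _ _).trans h
    exact Nat.Coprime.dvd_of_dvd_mul_right (Nat.Coprime.pow_left _ (Nat.coprime_two_left.mpr hm)) h2
  have h3 : r ∣ m := by
    have h2 : r ∣ 2 ^ a * m := (dvd_mul_left _ _).trans h
    exact Nat.Coprime.dvd_of_dvd_mul_left
      (Nat.Coprime.pow_right _ (Nat.coprime_two_right.mpr hr)) h2
  exact ⟨v, r, hv, (Nat.pow_dvd_pow_iff_le_right (by norm_num)).mp h1, hr, h3, hpr⟩

/-- a prime of odd exponent is at least `2 q - 1`, unless it is `2 ^ v - 1` -/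
theorem odd_exp {a m p : ℕ} (hm : Odd m) (h : Eqn (2 ^ a) m) (hp : p ∈ odds m) :
    2 * m.minFac ≤ p + 1 ∨ ∃ v, 1 ≤ v ∧ v ≤ a ∧ p + 1 = 2 ^ v := by
  have hm0 : m ≠ 0 := by
    rintro rfl
    exact absurd hm (by decide)
  have hp' := (Finset.mem_filter.mp hp).1
  have hpo : Odd p := Odd.of_dvd_nat hm (Nat.dvd_of_mem_primeFactors hp')
  obtain ⟨v, r, hv, hva, hr, hrm, hpr⟩ := odd_part hm hpo (succ_dvd hm0 h hp)
  by_cases hr1 : r = 1
  · right
    rw [hr1, mul_one] at hpr
    exact ⟨v, hv, hva, hpr⟩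
  · left
    have hr2 : 2 ≤ r := by
      have : r ≠ 0 := by
        rintro rfl
        exact absurd hr (by decide)
      omega
    have h1 : m.minFac ≤ r := Nat.minFac_le_of_dvd hr2 hrm
    have h2 : 2 ≤ 2 ^ v := by
      calc 2 = 2 ^ 1 := rfl
        _ ≤ 2 ^ v := Nat.pow_le_pow_right (by norm_num) hv
    rw [hpr]
    exact Nat.mul_le_mul h2 h1

/-- the case `a = 2`, `3` of odd exponent -/
theorem twelve {m : ℕ} (hm : Odd m) (h : Eqn 4 m) (h3 : 3 ∣ m) :
    ∃ r, 1 < r ∧ Nat.Coprime r 210 ∧ m = 3 * r ^ 2 := by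
  have hm0 : m ≠ 0 := by
    rintro rfl
    exact absurd hm (by decide)
  obtain ⟨w, hmw, hw, hw0, hcop⟩ := split hm0 Nat.prime_three
  have hpos := Nat.prime_three.factorization_pos_of_dvd hm0 h3
  have h1 : m.factorization 3 = 1 := by
    by_contra hne
    have := size_two (by norm_num) hm0 h Nat.prime_three (by omega)
    omega
  rw [h1, pow_one] at hmw hcop
  have hS : sg m = 4 * sg w := by
    rw [hmw, sg_mul hcop, sg_prime Nat.prime_three]
  have hU : us m = 4 * us w := by
    have h2 := us_prime_pow (p := 3) (k := 0) Nat.prime_three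
    rw [zero_add, pow_one] at h2
    rw [hmw, us_mul hcop, h2]
  have hE : 7 * sg w = 5 * us w + 3 * w := by
    unfold Eqn at h
    rw [hS, hU] at h
    have h2 : 4 * m = 12 * w := by
      rw [hmw]
      ring
    omega
  have hwo : Odd w := by
    rw [hmw] at hm
    exact (Nat.odd_mul.mp hm).2
  have hw1 : w ≠ 1 := by
    rintro rfl
    rw [sg_one, us_one] at hE
    omega
  have hue := us_even hwo hw1
  have hso : Odd (sg w) := by
    rw [Nat.odd_iff]
    obtain ⟨y, hy⟩ := hue
    obtain ⟨z, hz⟩ := hwo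
    omega
  have hev : ∀ p, p.Prime → Even (w.factorization p) := by
    intro p hp
    by_contra hodd
    rw [Nat.not_even_iff_odd] at hodd
    have hpw : p ∣ w := by
      by_contra hndvd
      rw [Nat.factorization_eq_zero_of_not_dvd hndvd] at hodd
      exact absurd hodd (by decide)
    have hpo : Odd p := Odd.of_dvd_nat hwo hpw
    have hmem : p ∈ odds w := by
      unfold odds
      rw [Finset.mem_filter]
      exact ⟨Nat.mem_primeFactors.mpr ⟨hp, hpw, hw0⟩, hodd⟩
    have h2 : p + 1 ∣ sg w :=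
      (Finset.dvd_prod_of_mem (fun p => p + 1) hmem).trans (prod_dvd_sg hw0)
    have h4 : Even (sg w) := by
      obtain ⟨c, hc⟩ := h2
      rw [hc]
      exact Even.mul_right hpo.add_one _
    exact (Nat.not_even_iff_odd.mpr hso) h4
  obtain ⟨r, hr⟩ := square_of hw0 hev
  have hr1 : 1 < r := by
    rcases Nat.lt_or_ge 1 r with h2 | h2
    · exact h2
    · exfalso
      interval_cases r
      · exact hw0 (by rw [hr]; norm_num)
      · exact hw1 (by rw [hr]; norm_num)
  have hbig : ∀ p, p.Prime → p ∣ w → 8 ≤ p := by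
    intro p hp hpw
    obtain ⟨u, hwu, hu, hu0, hcu⟩ := split hw0 hp
    have hfp : 0 < w.factorization p := hp.factorization_pos_of_dvd hw0 hpw
    have hfe := hev p hp
    obtain ⟨k, hk⟩ : ∃ k, w.factorization p = k + 1 := ⟨w.factorization p - 1, by omega⟩
    have hk1 : 1 ≤ k := by
      rw [hk] at hfe
      rcases hfe with ⟨j, hj⟩
      omega
    rw [hk] at hwu hcu
    have hS' : sg w = (1 + T p k + p ^ (k + 1)) * sg u := by
      rw [hwu, sg_mul hcu, sg_prime_pow hp]
    have hU' : us w = (1 + p ^ (k + 1)) * us u := by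
      rw [hwu, us_mul hcu, us_prime_pow hp]
    have g1 := us_le_sg hu0
    have g2 := sg_ge hu0
    have g3 := sg_pos hu0
    have hT := T_ge (p := p) hk1
    have hP : p ^ (k + 1) = p * p ^ k := by ring
    have hQ : 0 < p ^ k := pow_pos hp.pos k
    have hE' := hE
    rw [hS', hU'] at hE'
    have hw' : 3 * w = 3 * (p ^ (k + 1) * u) := by rw [← hwu]
    rw [hw'] at hE'
    clear hS' hU' hwu hcu hw' hk hfe hev hr hE hue hso
    generalize p ^ (k + 1) = P at *
    generalize p ^ k = Q at *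
    generalize T p k = t at *
    generalize sg u = s at *
    generalize us u = x at *
    have e0 : (7 * (1 + t + P)) * s ≤ (5 * (1 + P) + 3 * P) * s := by
      have e1 : 5 * ((1 + P) * x) ≤ 5 * ((1 + P) * s) :=
        Nat.mul_le_mul_left _ (Nat.mul_le_mul_left _ g1)
      have e2 : 3 * (P * u) ≤ 3 * (P * s) := Nat.mul_le_mul_left _ (Nat.mul_le_mul_left _ g2)
      calc (7 * (1 + t + P)) * s = 7 * ((1 + t + P) * s) := by ring
        _ = 5 * ((1 + P) * x) + 3 * (P * u) := hE'
        _ ≤ 5 * ((1 + P) * s) + 3 * (P * s) := Nat.add_le_add e1 e2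
        _ = _ := by ring
    have e3 : 7 * (1 + t + P) ≤ 5 * (1 + P) + 3 * P := Nat.le_of_mul_le_mul_right e0 g3
    by_contra hcon
    push Not at hcon
    have e4 : P ≤ 7 * Q := by
      rw [hP]
      exact Nat.mul_le_mul_right _ (by omega)
    omega
  refine ⟨r, hr1, ?_, by rw [hmw, hr]⟩
  rw [Nat.coprime_iff_gcd_eq_one]
  by_contra hne
  obtain ⟨p, hp, hpd⟩ := Nat.exists_prime_and_dvd hne
  have hpr : p ∣ r := hpd.trans (Nat.gcd_dvd_left _ _)
  have hp210 : p ∣ 210 := hpd.trans (Nat.gcd_dvd_right _ _)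
  have hpw : p ∣ w := by
    rw [hr]
    exact hpr.trans (dvd_pow_self r (by norm_num))
  have h8 := hbig p hp hpw
  have h9 : p ∣ 2 * 3 * 5 * 7 := hp210
  rw [hp.dvd_mul, hp.dvd_mul, hp.dvd_mul] at h9
  rcases h9 with ((h9 | h9) | h9) | h9
  · have := Nat.le_of_dvd (by norm_num) h9
    omega
  · have := Nat.le_of_dvd (by norm_num) h9
    omega
  · have := Nat.le_of_dvd (by norm_num) h9
    omega
  · have := Nat.le_of_dvd (by norm_num) h9
    omega

/-- the smallest odd prime has an even exponent, or one of the two forms -/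
theorem minFac_case {a m : ℕ} (ha : 1 ≤ a) (hm : Odd m) (h : Eqn (2 ^ a) m) :
    (∃ p, Nat.Prime (2 ^ p - 1) ∧ a = p + 1 ∧ m = 2 ^ p - 1) ∨
    (a = 2 ∧ ∃ r, 1 < r ∧ Nat.Coprime r 210 ∧ m = 3 * r ^ 2) ∨
    (Even (m.factorization m.minFac) ∧ 2 ^ a < m.minFac) := by
  have hm0 : m ≠ 0 := by
    rintro rfl
    exact absurd hm (by decide)
  have hm1 := one_lt_of_eqn hm0 h
  have hq := Nat.minFac_prime hm1
  have hqm := Nat.minFac_dvd m
  have hb : 2 ≤ 2 ^ a := by
    calc 2 = 2 ^ 1 := rfl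
      _ ≤ 2 ^ a := Nat.pow_le_pow_right (by norm_num) ha
  have hqo : Odd m.minFac := Odd.of_dvd_nat hm hqm
  have hpos := hq.factorization_pos_of_dvd hm0 hqm
  by_cases hev : Even (m.factorization m.minFac)
  · right
    right
    refine ⟨hev, ?_⟩
    have h2 : 2 ≤ m.factorization m.minFac := by
      rcases hev with ⟨j, hj⟩
      omega
    have h3 := size_two hb hm0 h hq h2
    refine lt_of_le_of_ne h3 ?_
    intro heq
    rw [← heq] at hqo
    have h4 : Even (2 ^ a) := by
      rw [Nat.even_pow]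
      exact ⟨even_two, by omega⟩
    exact (Nat.not_even_iff_odd.mpr hqo) h4
  rw [Nat.not_even_iff_odd] at hev
  have hmem : m.minFac ∈ odds m := by
    unfold odds
    rw [Finset.mem_filter]
    exact ⟨Nat.mem_primeFactors.mpr ⟨hq, hqm, hm0⟩, hev⟩
  have hq2 := hq.two_le
  rcases odd_exp hm h hmem with h1 | ⟨v, hv, hva, hqv⟩
  · omega
  obtain ⟨hs1, hs2⟩ := size_one hb hm0 h hq hqm
  have h2 : 2 ^ a ≤ 2 ^ (v + 1) := by
    rw [pow_succ]
    omega
  have h3 : a ≤ v + 1 := (Nat.pow_le_pow_iff_right (by norm_num)).mp h2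
  rcases Nat.lt_or_ge v a with h4 | h4
  · left
    have h5 : a = v + 1 := by omega
    have h6 : m = m.minFac := hs2 (by rw [h5, pow_succ]; omega)
    refine ⟨v, ?_, h5, ?_⟩
    · have : 2 ^ v - 1 = m.minFac := by omega
      rw [this]
      exact hq
    · omega
  · right
    left
    have h5 : v = a := by omega
    rw [h5] at hqv
    have hq3 : m.minFac = 3 ∧ a = 2 := by
      have hkey : m.minFac = 3 → a = 2 := by
        intro h6
        rw [h6] at hqv
        have h7 : 2 ^ a = 2 ^ 2 := by omega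
        exact Nat.pow_right_injective (le_refl 2) h7
      rcases Nat.even_or_odd a with he | ho
      · obtain ⟨k, hk⟩ := he
        have h6 : 2 ^ a % 3 = 1 := by
          rw [hk, ← two_mul, pow_mul, Nat.pow_mod]
          norm_num
        have h7 : 3 ∣ m.minFac := by omega
        have h8 : 3 = m.minFac := (Nat.prime_dvd_prime_iff_eq Nat.prime_three hq).mp h7
        exact ⟨h8.symm, hkey h8.symm⟩
      · exfalso
        have h6 := three_dvd ho h
        have h7 : m.minFac ≤ 3 := Nat.minFac_le_of_dvd (by norm_num) h6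
        have h8 : m.minFac = 3 := by
          rcases hqo with ⟨j, hj⟩
          omega
        have h9 := hkey h8
        rw [h9] at ho
        exact absurd ho (by decide)
    refine ⟨hq3.2, ?_⟩
    rw [hq3.2] at h
    have h3m : 3 ∣ m := by
      have := hqm
      rw [hq3.1] at this
      exact this
    exact twelve hm h h3m

/-- the odd primes that divide `n` to an odd power -/
def OddExp (n : ℕ) : Finset ℕ := n.primeFactors.filter (fun p => p ≠ 2 ∧ Odd (n.factorization p))

theorem fac_eq {a m p : ℕ} (hm : m ≠ 0) (hp : p ≠ 2) :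
    (2 ^ a * m).factorization p = m.factorization p := by
  rw [Nat.factorization_mul (by positivity) hm, Nat.prime_two.factorization_pow]
  simp [hp.symm]

theorem oddExp_eq {a m : ℕ} (hm : Odd m) : OddExp (2 ^ a * m) = odds m := by
  have hm0 : m ≠ 0 := by
    rintro rfl
    exact absurd hm (by decide)
  ext p
  unfold OddExp odds
  rw [Finset.mem_filter, Finset.mem_filter]
  constructor
  · rintro ⟨h1, h2, h3⟩
    rw [fac_eq hm0 h2] at h3
    refine ⟨?_, h3⟩
    rw [← Nat.support_factorization, Finsupp.mem_support_iff]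
    intro h0
    rw [h0] at h3
    exact absurd h3 (by decide)
  · rintro ⟨h1, h3⟩
    have h2 : p ≠ 2 := by
      rintro rfl
      have h4 := Nat.dvd_of_mem_primeFactors h1
      have h5 : Even m := even_iff_two_dvd.mpr h4
      exact (Nat.not_even_iff_odd.mpr hm) h5
    rw [fac_eq hm0 h2]
    refine ⟨?_, h2, h3⟩
    rw [Nat.mem_primeFactors] at h1 ⊢
    exact ⟨h1.1, Dvd.dvd.mul_left h1.2.1 _, mul_ne_zero (by positivity) hm0⟩

theorem main (n : ℕ) (hn : 0 < n) (heven : Even n)
    (hperf : ∑ d ∈ n.divisors.filter (fun d => 1 < Nat.gcd d (n / d)), d = n) :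
    (∃ p : ℕ, Nat.Prime (2 ^ p - 1) ∧ n = 2 ^ (p + 1) * (2 ^ p - 1)) ∨
    (∃ r : ℕ, 1 < r ∧ Nat.Coprime r 210 ∧ n = 12 * r ^ 2) ∨
    ∃ a q : ℕ, (a = 1 ∨ Even a) ∧ 2 ^ a ∣ n ∧ ¬ 2 ^ (a + 1) ∣ n ∧
      q.Prime ∧ q ∣ n ∧ 2 ^ a < q ∧ (∀ p : ℕ, p.Prime → p ∣ n → p = 2 ∨ q ≤ p) ∧
      Even (n.factorization q) ∧
      (OddExp n).Nonempty ∧ (∏ p ∈ OddExp n, (p + 1)) ∣ n ∧
      ∀ p ∈ OddExp n, 2 * q ≤ p + 1 := by
  obtain ⟨a, m, hm, hnm⟩ := Nat.exists_eq_two_pow_mul_odd (n := n) (by omega)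
  have hm0 : m ≠ 0 := by
    rintro rfl
    exact absurd hm (by decide)
  have ha : 1 ≤ a := by
    by_contra hcon
    have h0 : a = 0 := by omega
    rw [hnm, h0, pow_zero, one_mul] at heven
    exact (Nat.not_even_iff_odd.mpr hm) heven
  have hE : Eqn (2 ^ a) m := eqn_of ha hm (by
    unfold ns
    rw [← hnm]
    exact hperf)
  have hm1 := one_lt_of_eqn hm0 hE
  have hq := Nat.minFac_prime hm1
  have hqm := Nat.minFac_dvd m
  rcases minFac_case ha hm hE with ⟨p, hp, hap, hmp⟩ | ⟨ha2, r, hr1, hr, hmr⟩ | ⟨hev, hlt⟩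
  · left
    exact ⟨p, hp, by rw [hnm, hap, hmp]⟩
  · right
    left
    refine ⟨r, hr1, hr, ?_⟩
    rw [hnm, ha2, hmr]
    ring
  · right
    right
    have hqo : Odd m.minFac := Odd.of_dvd_nat hm hqm
    have hq2 : m.minFac ≠ 2 := by
      intro h2
      rw [h2] at hqo
      exact absurd hqo (by decide)
    refine ⟨a, m.minFac, ?_, ?_, ?_, hq, ?_, hlt, ?_, ?_, ?_, ?_, ?_⟩
    · rcases Nat.even_or_odd a with he | ho
      · exact Or.inr he
      · left
        have h3 := three_dvd ho hE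
        have h4 : m.minFac ≤ 3 := Nat.minFac_le_of_dvd (by norm_num) h3
        by_contra hne
        have h5 : 2 ≤ a := by omega
        have h6 : 2 ^ 2 ≤ 2 ^ a := Nat.pow_le_pow_right (by norm_num) h5
        omega
    · rw [hnm]
      exact dvd_mul_right _ _
    · rw [hnm, pow_succ]
      intro h2
      have h3 : 2 ∣ m := Nat.dvd_of_mul_dvd_mul_left (by positivity) h2
      exact (Nat.not_even_iff_odd.mpr hm) (even_iff_two_dvd.mpr h3)
    · rw [hnm]
      exact Dvd.dvd.mul_left hqm _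
    · intro p hp hpn
      rw [hnm] at hpn
      rcases (hp.dvd_mul).mp hpn with h2 | h2
      · left
        exact (Nat.prime_dvd_prime_iff_eq hp Nat.prime_two).mp (hp.dvd_of_dvd_pow h2)
      · right
        exact Nat.minFac_le_of_dvd hp.two_le h2
    · rw [hnm, fac_eq hm0 hq2]
      exact hev
    · rw [hnm, oddExp_eq hm]
      refine odds_nonempty ?_ hm hE
      rw [Nat.even_pow]
      exact ⟨even_two, by omega⟩
    · rw [hnm, oddExp_eq hm]
      exact prod_dvd_n hm0 hE
    · rw [hnm, oddExp_eq hm]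
      intro p hp
      rcases odd_exp hm hE hp with h2 | ⟨v, hv, hva, hpv⟩
      · exact h2
      · exfalso
        have h2 : p.Prime := Nat.prime_of_mem_primeFactors (Finset.mem_filter.mp hp).1
        have h3 : p ∣ m := Nat.dvd_of_mem_primeFactors (Finset.mem_filter.mp hp).1
        have h4 : m.minFac ≤ p := Nat.minFac_le_of_dvd h2.two_le h3
        have h5 : 2 ^ v ≤ 2 ^ a := Nat.pow_le_pow_right (by norm_num) hva
        omega

end Pool.Agent.H.MP_f7abb8_nt.EF
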