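import Pool.Agent.H.MP_f7abb8_nt.EF.Fin

/-!
# Even nonunitary perfect numbers: an upper bound for the smallest odd prime factor
-/

set_option autoImplicit false

namespace Pool.Agent.H.MP_f7abb8_nt.EF

open Pool.MP_f7abb8_nt.NU

theorem us_ge {m : ℕ} (hm : m ≠ 0) : m ≤ us m := by
  unfold us
  refine Finset.single_le_sum (f := fun d => d) (fun _ _ => Nat.zero_le _) ?_
  rw [Finset.mem_filter]
  refine ⟨Nat.mem_divisors_self m hm, ?_⟩
  rw [Nat.div_self (Nat.pos_of_ne_zero hm), Nat.gcd_one_right]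

theorem geom_le (d n : ℕ) : (∑ i ∈ Finset.range n, (d + 1) ^ i) * d + 1 = (d + 1) ^ n := by
  induction n with
  | zero => simp
  | succ n ih =>
    rw [Finset.sum_range_succ, add_mul, pow_succ, ← ih]
    have := ih
    nlinarith

theorem sg_pow_le {p e : ℕ} (hp : p.Prime) : sg (p ^ e) * (p - 1) ≤ p ^ e * p := by
  obtain ⟨d, rfl⟩ : ∃ d, p = d + 1 := ⟨p - 1, by have := hp.pos; omega⟩
  unfold sg
  rw [Nat.sum_divisors_prime_pow hp, Nat.add_sub_cancel, ← pow_succ, ← geom_le d (e + 1)]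
  exact Nat.le_add_right _ _

theorem sg_le {m : ℕ} (hm : m ≠ 0) :
    sg m * ∏ p ∈ m.primeFactors, (p - 1) ≤ m * ∏ p ∈ m.primeFactors, p := by
  have h1 : sg m = ∏ p ∈ m.primeFactors, sg (p ^ m.factorization p) := by
    rw [Nat.multiplicative_factorization sg (fun _ _ h => sg_mul h) sg_one hm]
    unfold Finsupp.prod
    rw [Nat.support_factorization]
  have h2 : m = ∏ p ∈ m.primeFactors, p ^ m.factorization p := by
    conv_lhs => rw [← Nat.prod_factorization_pow_eq_self hm]
    unfold Finsupp.prod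
    rw [Nat.support_factorization]
  calc sg m * ∏ p ∈ m.primeFactors, (p - 1)
      = ∏ p ∈ m.primeFactors, (sg (p ^ m.factorization p) * (p - 1)) := by
        rw [h1, Finset.prod_mul_distrib]
    _ ≤ ∏ p ∈ m.primeFactors, (p ^ m.factorization p * p) :=
        Finset.prod_le_prod' fun p hp => sg_pow_le (Nat.prime_of_mem_primeFactors hp)
    _ = m * ∏ p ∈ m.primeFactors, p := by
        rw [Finset.prod_mul_distrib, ← h2]

theorem prod_bound (c : ℕ) (S : Finset ℕ) : (∀ x ∈ S, c + 1 ≤ x) →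
    (∏ x ∈ S, x) * c ≤ (c + S.card) * ∏ x ∈ S, (x - 1) := by
  induction S using Finset.induction_on_max with
  | empty => intro _; simp
  | insert a S ha ih =>
    intro hS
    have hna : a ∉ S := fun h => lt_irrefl _ (ha a h)
    have ih' := ih fun x hx => hS x (Finset.mem_insert_of_mem hx)
    rw [Finset.prod_insert hna, Finset.prod_insert hna, Finset.card_insert_of_notMem hna]
    have hca := hS a (Finset.mem_insert_self a S)
    have hcard : c + S.card + 1 ≤ a := by
      have h1 : S ⊆ Finset.Ico (c + 1) a := by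
        intro x hx
        rw [Finset.mem_Ico]
        exact ⟨hS x (Finset.mem_insert_of_mem hx), ha x hx⟩
      have h2 := Finset.card_le_card h1
      rw [Nat.card_Ico] at h2
      omega
    obtain ⟨d, rfl⟩ : ∃ d, a = d + 1 := ⟨a - 1, by omega⟩
    rw [Nat.add_sub_cancel]
    have h3 : (d + 1) * (c + S.card) ≤ (c + (S.card + 1)) * d := by nlinarith
    calc (d + 1) * (∏ x ∈ S, x) * c = (d + 1) * ((∏ x ∈ S, x) * c) := by ring
      _ ≤ (d + 1) * ((c + S.card) * ∏ x ∈ S, (x - 1)) := Nat.mul_le_mul_left _ ih'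
      _ = ((d + 1) * (c + S.card)) * ∏ x ∈ S, (x - 1) := by ring
      _ ≤ ((c + (S.card + 1)) * d) * ∏ x ∈ S, (x - 1) := Nat.mul_le_mul_right _ h3
      _ = (c + (S.card + 1)) * (d * ∏ x ∈ S, (x - 1)) := by ring

/-- the analogue of the bound of Gruen -/
theorem upper {b m : ℕ} (hb : 2 ≤ b) (hm : m ≠ 0) (h : Eqn b m) :
    2 * (m.minFac - 1) ≤ (2 * b - 1) * m.primeFactors.card := by
  have hm1 := one_lt_of_eqn hm h
  have hq := Nat.minFac_prime hm1
  obtain ⟨c, hc⟩ : ∃ c, m.minFac = c + 1 := ⟨m.minFac - 1, by have := hq.pos; omega⟩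
  obtain ⟨d, hd⟩ : ∃ d, 2 * b = d + 1 := ⟨2 * b - 1, by omega⟩
  rw [hc, hd, Nat.add_sub_cancel, Nat.add_sub_cancel]
  have h1 := us_ge hm
  have h2 := sg_le hm
  have h3 := prod_bound c m.primeFactors fun x hx => by
    rw [← hc]
    exact Nat.minFac_le_of_dvd (Nat.prime_of_mem_primeFactors hx).two_le
      (Nat.dvd_of_mem_primeFactors hx)
  have h4 : (d + 2) * m ≤ d * sg m := by
    unfold Eqn at h
    rw [hd] at h
    have h5 : (b + 1) * m ≤ (b + 1) * us m := Nat.mul_le_mul_left _ h1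
    have h6 : (d + 2) * m = (b + 1) * m + b * m := by
      rw [← add_mul]
      congr 1
      omega
    have h7 : (d + 1) * sg m = d * sg m + sg m := by ring
    omega
  have hD : 0 < ∏ p ∈ m.primeFactors, (p - 1) := by
    refine Finset.prod_pos fun p hp => ?_
    have := (Nat.prime_of_mem_primeFactors hp).two_le
    omega
  have hmpos : 0 < m := Nat.pos_of_ne_zero hm
  generalize (∏ p ∈ m.primeFactors, (p - 1)) = D at *
  generalize (∏ p ∈ m.primeFactors, p) = P at *
  generalize m.primeFactors.card = k at *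
  have h8 : (d + 2) * D ≤ d * P := by
    have h9 : ((d + 2) * D) * m ≤ (d * P) * m := by
      calc ((d + 2) * D) * m = ((d + 2) * m) * D := by ring
        _ ≤ (d * sg m) * D := Nat.mul_le_mul_right _ h4
        _ = d * (sg m * D) := by ring
        _ ≤ d * (m * P) := Nat.mul_le_mul_left _ h2
        _ = (d * P) * m := by ring
    exact Nat.le_of_mul_le_mul_right h9 hmpos
  have h10 : (d + 2) * c ≤ d * (c + k) := by
    have h11 : ((d + 2) * c) * D ≤ (d * (c + k)) * D := by
      calc ((d + 2) * c) * D = ((d + 2) * D) * c := by ring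
        _ ≤ (d * P) * c := Nat.mul_le_mul_right _ h8
        _ = d * (P * c) := by ring
        _ ≤ d * ((c + k) * D) := Nat.mul_le_mul_left _ h3
        _ = (d * (c + k)) * D := by ring
    exact Nat.le_of_mul_le_mul_right h11 hD
  nlinarith

theorem primes_eq {a m : ℕ} (hm : Odd m) :
    (2 ^ a * m).primeFactors.filter (fun p => p ≠ 2) = m.primeFactors := by
  have hm0 : m ≠ 0 := by
    rintro rfl
    exact absurd hm (by decide)
  ext p
  rw [Finset.mem_filter, Nat.mem_primeFactors, Nat.mem_primeFactors]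
  constructor
  · rintro ⟨⟨h1, h2, h3⟩, h4⟩
    refine ⟨h1, ?_, hm0⟩
    rcases (h1.dvd_mul).mp h2 with h5 | h5
    · exact absurd ((Nat.prime_dvd_prime_iff_eq h1 Nat.prime_two).mp (h1.dvd_of_dvd_pow h5)) h4
    · exact h5
  · rintro ⟨h1, h2, h3⟩
    refine ⟨⟨h1, Dvd.dvd.mul_left h2 _, mul_ne_zero (by positivity) hm0⟩, ?_⟩
    rintro rfl
    exact (Nat.not_even_iff_odd.mpr hm) (even_iff_two_dvd.mpr h2)

theorem main' (n : ℕ) (hn : 0 < n) (heven : Even n)
    (hperf : ∑ d ∈ n.divisors.filter (fun d => 1 < Nat.gcd d (n / d)), d = n) :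
    (∃ p : ℕ, Nat.Prime (2 ^ p - 1) ∧ n = 2 ^ (p + 1) * (2 ^ p - 1)) ∨
    (∃ r : ℕ, 1 < r ∧ Nat.Coprime r 210 ∧ n = 12 * r ^ 2) ∨
    ∃ a q : ℕ, (a = 1 ∨ Even a) ∧ 2 ^ a ∣ n ∧ ¬ 2 ^ (a + 1) ∣ n ∧
      q.Prime ∧ q ∣ n ∧ (∀ p : ℕ, p.Prime → p ∣ n → p = 2 ∨ q ≤ p) ∧
      Even (n.factorization q) ∧
      2 ^ a < q ∧ q < (n.primeFactors.filter (fun p => p ≠ 2)).card * 2 ^ a ∧
      (OddExp n).Nonempty ∧ (∏ p ∈ OddExp n, (p + 1)) ∣ n ∧
      ∀ p ∈ OddExp n, 2 * q ≤ p + 1 := by
  rcases main n hn heven hperf with h | h | ⟨a, q, h1, h2, h3, h4, h5, h6, h7, h8, h9, h10, h11⟩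
  · exact Or.inl h
  · exact Or.inr (Or.inl h)
  · refine Or.inr (Or.inr ⟨a, q, h1, h2, h3, h4, h5, h7, h8, h6, ?_, h9, h10, h11⟩)
    obtain ⟨m, hnm⟩ := h2
    have hm : Odd m := by
      rw [← Nat.not_even_iff_odd]
      intro he
      obtain ⟨c, hc⟩ := even_iff_two_dvd.mp he
      apply h3
      rw [hnm, hc, pow_succ]
      exact ⟨c, by ring⟩
    have hm0 : m ≠ 0 := by
      rintro rfl
      exact absurd hm (by decide)
    have ha : 1 ≤ a := by
      by_contra hcon
      have h0 : a = 0 := by omega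
      rw [hnm, h0, pow_zero, one_mul] at heven
      exact (Nat.not_even_iff_odd.mpr hm) heven
    have hE : Eqn (2 ^ a) m := eqn_of ha hm (by
      unfold ns
      rw [← hnm]
      exact hperf)
    have hm1 := one_lt_of_eqn hm0 hE
    have hb : 2 ≤ 2 ^ a := by
      calc 2 = 2 ^ 1 := rfl
        _ ≤ 2 ^ a := Nat.pow_le_pow_right (by norm_num) ha
    have hq2 : q ≠ 2 := by
      intro h
      omega
    have hqm : q ∣ m := by
      rw [hnm] at h5
      rcases (h4.dvd_mul).mp h5 with h | h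
      · exact absurd ((Nat.prime_dvd_prime_iff_eq h4 Nat.prime_two).mp (h4.dvd_of_dvd_pow h)) hq2
      · exact h
    have hqmin : q = m.minFac := by
      have e1 : m.minFac ≤ q := Nat.minFac_le_of_dvd h4.two_le hqm
      have hp := Nat.minFac_prime hm1
      have e2 := h7 m.minFac hp (by rw [hnm]; exact Dvd.dvd.mul_left (Nat.minFac_dvd m) _)
      rcases e2 with e2 | e2
      · exfalso
        have e3 := Nat.minFac_dvd m
        rw [e2] at e3
        exact (Nat.not_even_iff_odd.mpr hm) (even_iff_two_dvd.mpr e3)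
      · omega
    have hup := upper hb hm0 hE
    rw [← hqmin] at hup
    rw [hnm, primes_eq hm]
    have hk : 2 ≤ m.primeFactors.card := by
      obtain ⟨p, hp⟩ := h9
      have hpo := (Finset.mem_filter.mp hp)
      have hp1 := Nat.prime_of_mem_primeFactors hpo.1
      have hpm : p ∣ m := by
        have h12 := Nat.dvd_of_mem_primeFactors hpo.1
        rw [hnm] at h12
        rcases (hp1.dvd_mul).mp h12 with h | h
        · exact absurd ((Nat.prime_dvd_prime_iff_eq hp1 Nat.prime_two).mp (hp1.dvd_of_dvd_pow h)) hpo.2.1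
        · exact h
      have hne : p ≠ q := by
        rintro rfl
        exact (Nat.not_even_iff_odd.mpr hpo.2.2) h8
      have h13 : ({p, q} : Finset ℕ) ⊆ m.primeFactors := by
        intro x hx
        simp only [Finset.mem_insert, Finset.mem_singleton] at hx
        rcases hx with rfl | rfl
        · exact Nat.mem_primeFactors.mpr ⟨hp1, hpm, hm0⟩
        · exact Nat.mem_primeFactors.mpr ⟨h4, hqm, hm0⟩
      calc 2 = ({p, q} : Finset ℕ).card := (Finset.card_pair hne).symm
        _ ≤ _ := Finset.card_le_card h13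
    have hle : q ≤ m.primeFactors.card * 2 ^ a := by
      obtain ⟨d, hd⟩ : ∃ d, 2 * 2 ^ a = d + 1 := ⟨2 * 2 ^ a - 1, by omega⟩
      rw [hd, Nat.add_sub_cancel] at hup
      have e1 : 2 * (m.primeFactors.card * 2 ^ a) = (d + 1) * m.primeFactors.card := by
        rw [← hd]
        ring
      have e2 : (d + 1) * m.primeFactors.card = d * m.primeFactors.card + m.primeFactors.card := by
        ring
      omega
    refine lt_of_le_of_ne hle ?_
    intro heq
    have e3 : Even q := by
      rw [heq]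
      refine Even.mul_left ?_ _
      rw [Nat.even_pow]
      exact ⟨even_two, by omega⟩
    exact (Nat.not_even_iff_odd.mpr (h4.odd_of_ne_two hq2)) e3

end Pool.Agent.H.MP_f7abb8_nt.EF
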