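import Pool.Agent.H.MP_f7abb8_nt.Sums

/-!
# Even nonunitary perfect numbers: the equation and its consequences

`sg` is the sum of the divisors, `us` the sum of the unitary divisors. For `n = 2 ^ a * m`, `m` odd, `b = 2 ^ a`, the
number `n` is nonunitary perfect iff `2 b (sg m) = sg m + (b + 1) (us m) + b m` (`Eqn b m`).
-/

set_option autoImplicit false

namespace Pool.Agent.H.MP_f7abb8_nt.EF

open Pool.MP_f7abb8_nt.NU

/-- the equation for the odd part -/
def Eqn (b m : ℕ) : Prop := 2 * b * sg m = sg m + (b + 1) * us m + b * m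

theorem us_le_sg {m : ℕ} (hm : m ≠ 0) : us m ≤ sg m := by
  rw [sg_eq m hm]
  exact Nat.le_add_right _ _

theorem sg_one : sg 1 = 1 := by decide

theorem us_one : us 1 = 1 := by decide

theorem sg_pos {m : ℕ} (hm : m ≠ 0) : 0 < sg m := lt_of_lt_of_le (Nat.pos_of_ne_zero hm) (sg_ge hm)

theorem sg_two_pow (a : ℕ) : sg (2 ^ (a + 1)) + 1 = 2 * 2 ^ (a + 1) := by
  have h1 := T_geom 2 a
  rw [sg_prime_pow Nat.prime_two]
  have h2 : ((2 : ℕ) : ℤ) - 1 = 1 := by norm_num
  rw [h2, one_mul] at h1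
  have h3 : T 2 a + 2 = 2 ^ (a + 1) := by
    zify
    rw [h1]
    push_cast
    ring
  omega

theorem eqn_of {a m : ℕ} (ha : 1 ≤ a) (hm : Odd m) (h : ns (2 ^ a * m) = 2 ^ a * m) :
    Eqn (2 ^ a) m := by
  obtain ⟨k, rfl⟩ : ∃ k, a = k + 1 := ⟨a - 1, by omega⟩
  have hm0 : m ≠ 0 := by
    rintro rfl
    exact absurd hm (by decide)
  have hcop : (2 ^ (k + 1)).Coprime m := Nat.Coprime.pow_left _ (Nat.coprime_two_left.mpr hm)
  have h1 := sg_eq (2 ^ (k + 1) * m) (mul_ne_zero (by positivity) hm0)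
  rw [h, sg_mul hcop, us_mul hcop, us_prime_pow Nat.prime_two] at h1
  have h2 := sg_two_pow k
  unfold Eqn
  have h3 : (sg (2 ^ (k + 1)) + 1) * sg m = 2 * 2 ^ (k + 1) * sg m := by rw [h2]
  rw [add_mul, h1, one_mul] at h3
  rw [← h3]
  ring

/-- decomposition at a prime -/
theorem split {m p : ℕ} (hm : m ≠ 0) (hp : p.Prime) :
    ∃ w, m = p ^ m.factorization p * w ∧ ¬ p ∣ w ∧ w ≠ 0 ∧
      (p ^ m.factorization p).Coprime w := by
  obtain ⟨e, w, hw, hmw⟩ := Nat.exists_eq_pow_mul_and_not_dvd hm p hp.ne_one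
  have hw0 : w ≠ 0 := by
    rintro rfl
    exact hw (dvd_zero _)
  have he : m.factorization p = e := by
    rw [hmw, Nat.factorization_mul (pow_ne_zero _ hp.ne_zero) hw0, hp.factorization_pow]
    simp [Nat.factorization_eq_zero_of_not_dvd hw]
  rw [he]
  exact ⟨w, hmw, hw, hw0, Nat.Coprime.pow_left _ ((Nat.Prime.coprime_iff_not_dvd hp).mpr hw)⟩

theorem sg_strict {m p : ℕ} (hm : m ≠ 0) (hp : p.Prime) (hpm : p ∣ m) (hne : m ≠ p) :
    (p + 1) * m < p * sg m := by
  obtain ⟨c, rfl⟩ := hpm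
  have hc0 : c ≠ 0 := by
    rintro rfl
    exact hm (mul_zero _)
  have hc1 : c ≠ 1 := by
    rintro rfl
    exact hne (mul_one _)
  have hp2 := hp.two_le
  have hc2 : 2 ≤ c := by omega
  have hpc : c < p * c := by nlinarith
  have h1 : ({1, c, p * c} : Finset ℕ) ⊆ (p * c).divisors := by
    intro d hd
    rw [Nat.mem_divisors]
    simp only [Finset.mem_insert, Finset.mem_singleton] at hd
    refine ⟨?_, hm⟩
    rcases hd with rfl | rfl | rfl
    · exact one_dvd _
    · exact dvd_mul_left _ _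
    · exact dvd_refl _
  have h2 : ∑ d ∈ ({1, c, p * c} : Finset ℕ), d ≤ sg (p * c) :=
    Finset.sum_le_sum_of_subset h1
  rw [Finset.sum_insert (by simp; omega), Finset.sum_pair (by omega)] at h2
  have h3 : p * (1 + (c + p * c)) ≤ p * sg (p * c) := Nat.mul_le_mul_left _ h2
  have h4 : (p + 1) * (p * c) < p * (1 + (c + p * c)) := by
    have : p * (1 + (c + p * c)) = (p + 1) * (p * c) + p := by ring
    omega
  omega

/-- all odd primes are at least `2 ^ (a - 1) - 1`, with equality only if `m` is this prime -/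
theorem size_one {b m p : ℕ} (hb : 2 ≤ b) (hm : m ≠ 0) (h : Eqn b m) (hp : p.Prime)
    (hpm : p ∣ m) : b ≤ 2 * p + 2 ∧ (b = 2 * p + 2 → m = p) := by
  have hle := us_le_sg hm
  have hpos := sg_pos hm
  unfold Eqn at h
  have h1 : 2 * b * sg m ≤ sg m + (b + 1) * sg m + b * m := by
    rw [h]
    have := Nat.mul_le_mul_left (b + 1) hle
    omega
  obtain ⟨c, rfl⟩ : ∃ c, b = c + 2 := ⟨b - 2, by omega⟩
  have h2 : c * sg m ≤ (c + 2) * m := by nlinarith
  have hm1 : 0 < m := Nat.pos_of_ne_zero hm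
  by_cases hne : m = p
  · rw [hne] at h2 ⊢
    rw [sg_prime hp] at h2
    refine ⟨?_, fun _ => rfl⟩
    nlinarith
  · have h3 := sg_strict hm hp hpm hne
    have h4 : c * (p * sg m) ≤ (c + 2) * (p * m) := by
      calc c * (p * sg m) = p * (c * sg m) := by ring
        _ ≤ p * ((c + 2) * m) := Nat.mul_le_mul_left _ h2
        _ = (c + 2) * (p * m) := by ring
    have h5 : c * ((p + 1) * m) ≤ c * (p * sg m) := Nat.mul_le_mul_left _ h3.le
    have h6 : c * ((p + 1) * m) ≤ (c + 2) * (p * m) := h5.trans h4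
    have h7 : c ≤ 2 * p := by
      by_contra hcon
      push Not at hcon
      have : (c + 2) * (p * m) < c * ((p + 1) * m) := by nlinarith
      omega
    refine ⟨by omega, fun h8 => ?_⟩
    exfalso
    have hc : c = 2 * p := by omega
    have hcpos : 0 < c := by
      rw [hc]
      have := hp.pos
      omega
    have h9 : c * ((p + 1) * m) < c * (p * sg m) := Nat.mul_lt_mul_of_pos_left h3 hcpos
    have h10 : c * ((p + 1) * m) = (c + 2) * (p * m) := by
      rw [hc]
      ring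
    omega

theorem T_ge {p k : ℕ} (hk : 1 ≤ k) : p ^ k ≤ T p k := by
  obtain ⟨j, rfl⟩ : ∃ j, k = j + 1 := ⟨k - 1, by omega⟩
  rw [T_succ]
  exact Nat.le_add_left _ _

/-- primes whose square divides the odd part are larger than `2 ^ a` -/
theorem size_two {b m p : ℕ} (hb : 2 ≤ b) (hm : m ≠ 0) (h : Eqn b m) (hp : p.Prime)
    (hpm : 2 ≤ m.factorization p) : b ≤ p := by
  obtain ⟨w, hmw, hw, hw0, hcop⟩ := split hm hp
  obtain ⟨k, hk⟩ : ∃ k, m.factorization p = k + 1 := ⟨m.factorization p - 1, by omega⟩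
  have hk1 : 1 ≤ k := by omega
  rw [hk] at hmw hcop
  have hS : sg m = (1 + T p k + p ^ (k + 1)) * sg w := by
    rw [hmw, sg_mul hcop, sg_prime_pow hp]
  have hU : us m = (1 + p ^ (k + 1)) * us w := by
    rw [hmw, us_mul hcop, us_prime_pow hp]
  have h1 := us_le_sg hw0
  have h2 := sg_ge hw0
  have h3 := sg_pos hw0
  have hT := T_ge (p := p) hk1
  have hP : p ^ (k + 1) = p * p ^ k := by ring
  have hQ : 0 < p ^ k := pow_pos hp.pos k
  unfold Eqn at h
  rw [hS, hU] at h
  have hm' : b * m = b * (p ^ (k + 1) * w) := by rw [← hmw]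
  rw [hm'] at h
  generalize p ^ (k + 1) = P at *
  generalize p ^ k = Q at *
  generalize T p k = t at *
  generalize sg w = s at *
  generalize us w = u at *
  have h4 : 2 * b * ((1 + t + P) * s) ≤ (1 + t + P) * s + (b + 1) * ((1 + P) * s) + b * (P * s) := by
    rw [h]
    have e1 : (b + 1) * ((1 + P) * u) ≤ (b + 1) * ((1 + P) * s) :=
      Nat.mul_le_mul_left _ (Nat.mul_le_mul_left _ h1)
    have e2 : b * (P * w) ≤ b * (P * s) := Nat.mul_le_mul_left _ (Nat.mul_le_mul_left _ h2)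
    omega
  have h5 : 2 * b * (1 + t + P) ≤ (1 + t + P) + (b + 1) * (1 + P) + b * P := by
    have e3 : (2 * b * (1 + t + P)) * s ≤ ((1 + t + P) + (b + 1) * (1 + P) + b * P) * s := by
      calc (2 * b * (1 + t + P)) * s = 2 * b * ((1 + t + P) * s) := by ring
        _ ≤ _ := h4
        _ = _ := by ring
    exact Nat.le_of_mul_le_mul_right e3 h3
  by_contra hcon
  push Not at hcon
  obtain ⟨c, rfl⟩ : ∃ c, b = p + 1 + c := ⟨b - (p + 1), by omega⟩
  rw [hP] at h5
  nlinarith [Nat.mul_le_mul_left p hT, Nat.mul_le_mul_left c hT]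

/-- the sum of the divisors of `p ^ e`, `e` odd, is divisible by `p + 1` -/
theorem dvd_sg_pow {p e : ℕ} (hp : p.Prime) (he : Odd e) : p + 1 ∣ sg (p ^ e) := by
  obtain ⟨k, rfl⟩ := he
  have h1 : ∀ k : ℕ, p + 1 ∣ ∑ i ∈ Finset.range (2 * k + 2), p ^ i := by
    intro k
    induction k with
    | zero =>
      rw [Finset.sum_range_succ, Finset.sum_range_succ, Finset.sum_range_zero]
      simp [add_comm]
    | succ k ih =>
      rw [show 2 * (k + 1) + 2 = (2 * k + 2) + 1 + 1 by ring, Finset.sum_range_succ,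
        Finset.sum_range_succ, add_assoc]
      refine dvd_add ih ?_
      exact ⟨p ^ (2 * k + 2), by ring⟩
  have h2 : sg (p ^ (2 * k + 1)) = ∑ i ∈ Finset.range (2 * k + 2), p ^ i := by
    unfold sg
    rw [Nat.sum_divisors_prime_pow hp]
  rw [h2]
  exact h1 k

theorem dvd_us_pow {p e : ℕ} (hp : p.Prime) (he : Odd e) : p + 1 ∣ us (p ^ e) := by
  obtain ⟨k, rfl⟩ := he
  rw [us_prime_pow hp]
  have h1 : Odd (2 * k + 1) := ⟨k, rfl⟩
  have h2 := h1.nat_add_dvd_pow_add_pow p 1
  rw [one_pow] at h2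
  rw [add_comm 1 (p ^ (2 * k + 1))]
  exact h2

/-- the primes of odd exponent -/
def odds (m : ℕ) : Finset ℕ := m.primeFactors.filter (fun p => Odd (m.factorization p))

theorem prod_dvd {f : ℕ → ℕ} (hmul : ∀ x y, Nat.Coprime x y → f (x * y) = f x * f y)
    (h1 : f 1 = 1) (h : ∀ p e, p.Prime → Odd e → p + 1 ∣ f (p ^ e)) {m : ℕ} (hm : m ≠ 0) :
    ∏ p ∈ odds m, (p + 1) ∣ f m := by
  rw [Nat.multiplicative_factorization f hmul h1 hm]
  unfold Finsupp.prod
  rw [Nat.support_factorization]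
  refine (Finset.prod_dvd_prod_of_dvd _ _ fun p hp => ?_).trans
    (Finset.prod_dvd_prod_of_subset (odds m) _ _ (Finset.filter_subset _ _))
  have hp' := Finset.mem_filter.mp hp
  exact h p _ (Nat.prime_of_mem_primeFactors hp'.1) hp'.2

theorem prod_dvd_sg {m : ℕ} (hm : m ≠ 0) : ∏ p ∈ odds m, (p + 1) ∣ sg m :=
  prod_dvd (fun _ _ h => sg_mul h) sg_one (fun _ _ hp he => dvd_sg_pow hp he) hm

theorem prod_dvd_us {m : ℕ} (hm : m ≠ 0) : ∏ p ∈ odds m, (p + 1) ∣ us m :=
  prod_dvd (fun _ _ h => us_mul h) us_one (fun _ _ hp he => dvd_us_pow hp he) hm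

theorem dvd_of_eqn {b m d : ℕ} (h : Eqn b m) (h1 : d ∣ sg m) (h2 : d ∣ us m) : d ∣ b * m := by
  unfold Eqn at h
  have h3 : d ∣ sg m + (b + 1) * us m + b * m := by
    rw [← h]
    exact Dvd.dvd.mul_left h1 _
  exact (Nat.dvd_add_right (dvd_add h1 (Dvd.dvd.mul_left h2 _))).mp h3

theorem prod_dvd_n {b m : ℕ} (hm : m ≠ 0) (h : Eqn b m) : ∏ p ∈ odds m, (p + 1) ∣ b * m :=
  dvd_of_eqn h (prod_dvd_sg hm) (prod_dvd_us hm)

theorem succ_dvd {b m p : ℕ} (hm : m ≠ 0) (h : Eqn b m) (hp : p ∈ odds m) : p + 1 ∣ b * m :=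
  (Finset.dvd_prod_of_mem (fun p => p + 1) hp).trans (prod_dvd_n hm h)

/-- an odd number with an even exponent at every prime has an odd sum of divisors -/
theorem sg_odd {m : ℕ} (hm : Odd m) (h : ∀ p, p.Prime → Even (m.factorization p)) :
    Odd (sg m) := by
  have hm0 : m ≠ 0 := by
    rintro rfl
    exact absurd hm (by decide)
  rw [Nat.multiplicative_factorization sg (fun _ _ h => sg_mul h) sg_one hm0]
  unfold Finsupp.prod
  rw [Nat.support_factorization]
  refine Finset.prod_induction _ Odd (fun _ _ => Odd.mul) odd_one fun p hp => ?_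
  have hpp := Nat.prime_of_mem_primeFactors hp
  have hpm := Nat.dvd_of_mem_primeFactors hp
  have hpo : Odd p := Odd.of_dvd_nat hm hpm
  have hpos : 0 < m.factorization p := hpp.factorization_pos_of_dvd hm0 hpm
  obtain ⟨k, hk⟩ : ∃ k, m.factorization p = k + 1 := ⟨m.factorization p - 1, by omega⟩
  have he := h p hpp
  rw [hk] at he ⊢
  change Odd (sg (p ^ (k + 1)))
  rw [sg_prime_pow hpp, Nat.odd_iff]
  have h1 := T_parity p k hpo
  have h2 : p ^ (k + 1) % 2 = 1 := Nat.odd_iff.mp hpo.pow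
  have h3 : k % 2 = 1 := by
    rcases he with ⟨j, hj⟩
    omega
  omega

theorem us_even {m : ℕ} (hm : Odd m) (h1 : m ≠ 1) : Even (us m) := by
  have hm0 : m ≠ 0 := by
    rintro rfl
    exact absurd hm (by decide)
  obtain ⟨p, hp, hpm⟩ := Nat.exists_prime_and_dvd h1
  obtain ⟨w, hmw, hw, hw0, hcop⟩ := split hm0 hp
  have hpos : 0 < m.factorization p := hp.factorization_pos_of_dvd hm0 hpm
  obtain ⟨k, hk⟩ : ∃ k, m.factorization p = k + 1 := ⟨m.factorization p - 1, by omega⟩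
  rw [hk] at hmw hcop
  have hU : us m = (1 + p ^ (k + 1)) * us w := by
    rw [hmw, us_mul hcop, us_prime_pow hp]
  rw [hU]
  refine Even.mul_right ?_ _
  have hpo : Odd p := Odd.of_dvd_nat hm hpm
  exact Odd.add_odd odd_one hpo.pow

/-- squares -/
theorem square_of {m : ℕ} (hm : m ≠ 0) (h : ∀ p, p.Prime → Even (m.factorization p)) :
    ∃ r, m = r ^ 2 := by
  obtain ⟨a, b, hab, ha⟩ := Nat.sq_mul_squarefree m
  have ha0 : a ≠ 0 := ha.ne_zero
  have hb0 : b ≠ 0 := by
    rintro rfl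
    apply hm
    rw [← hab]
    simp
  have ha1 : a = 1 := by
    by_contra hne
    obtain ⟨p, hp, hpa⟩ := Nat.exists_prime_and_dvd hne
    have h1 : m.factorization p = 2 * b.factorization p + a.factorization p := by
      rw [← hab, Nat.factorization_mul (pow_ne_zero _ hb0) ha0, Nat.factorization_pow]
      simp
    have h2 : a.factorization p = 1 := by
      have h3 := (Nat.squarefree_iff_factorization_le_one ha0).mp ha p
      have h4 := hp.factorization_pos_of_dvd ha0 hpa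
      omega
    have h5 := h p hp
    rw [h1, h2] at h5
    rcases h5 with ⟨j, hj⟩
    omega
  exact ⟨b, by rw [← hab, ha1, mul_one]⟩

end Pool.Agent.H.MP_f7abb8_nt.EF
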